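import Pool.Agent.H82.Pile.Defs

/-!
# Existence of the cocycle with prescribed restrictions to the stabilizers
-/

set_option autoImplicit false

namespace Pool.Agent.H82.PL

theorem exists_cocycle {A X E : Type*} [Group A] [Group E] [TopologicalSpace A]
    [TopologicalSpace X] (Q : Pile A X) {m : ℕ} (x : Fin m → X)
    (hx : ∀ i j a, Q.act (x i) a = x j → i = j) (Θ : Fin m → A → E)
    (hΘ : ∀ i a b, Q.act (x i) a = x i → Q.act (x i) b = x i → Θ i (a * b) = Θ i a * Θ i b) :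
    ∃ κ : X → A → E, (∀ y a b, κ y (a * b) = κ y a * κ (Q.act y a) b) ∧
      ∃ c : Fin m → E, ∀ i a, Q.act (x i) a = x i → κ (x i) a = (c i)⁻¹ * Θ i a * c i := by
  classical
  set Hit : X → Prop := fun y => ∃ p : Fin m × A, Q.act (x p.1) p.2 = y with hHit
  have hit_act : ∀ y a, Hit y → Hit (Q.act y a) := by
    rintro y a ⟨p, rfl⟩
    exact ⟨(p.1, p.2 * a), Q.act_mul _ _ _⟩
  have hit_of_act : ∀ y a, Hit (Q.act y a) → Hit y := by
    intro y a h
    have := hit_act _ a⁻¹ h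
    rw [← Q.act_mul, mul_inv_cancel, Q.act_one] at this
    exact this
  -- representatives
  have hrep : ∀ y, ∃ p : Option (Fin m × A), (Hit y → ∃ q, p = some q ∧ Q.act (x q.1) q.2 = y) ∧
      (¬ Hit y → p = none) := by
    intro y
    by_cases h : Hit y
    · obtain ⟨q, hq⟩ := h
      exact ⟨some q, fun _ => ⟨q, rfl, hq⟩, fun h' => absurd ⟨q, hq⟩ h'⟩
    · exact ⟨none, fun h' => absurd h' h, fun _ => rfl⟩
  choose p hp1 hp2 using hrep
  set κ : X → A → E := fun y a => match p y, p (Q.act y a) with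
    | some q, some q' => Θ q.1 (q.2 * a * q'.2⁻¹)
    | _, _ => 1 with hκ
  have κ_some : ∀ y a q q', p y = some q → p (Q.act y a) = some q' →
      κ y a = Θ q.1 (q.2 * a * q'.2⁻¹) := by
    intro y a q q' h1 h2
    simp only [hκ, h1, h2]
  have κ_none : ∀ y a, p y = none → κ y a = 1 := by
    intro y a h1
    simp only [hκ, h1]
  refine ⟨κ, ?_, ?_⟩
  · intro y a b
    by_cases h : Hit y
    · obtain ⟨q, hq, hqy⟩ := hp1 y h
      obtain ⟨q', hq', hqy'⟩ := hp1 _ (hit_act y a h)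
      obtain ⟨q'', hq'', hqy''⟩ := hp1 _ (hit_act y (a * b) h)
      have back : ∀ (z : X) (w : X) (c : A), Q.act w c = z → Q.act z c⁻¹ = w := by
        rintro z w c rfl
        rw [← Q.act_mul, mul_inv_cancel, Q.act_one]
      have b0 : Q.act y q.2⁻¹ = x q.1 := back _ _ _ hqy
      have b1 : Q.act (Q.act y a) q'.2⁻¹ = x q'.1 := back _ _ _ hqy'
      have b2 : Q.act (Q.act y (a * b)) q''.2⁻¹ = x q''.1 := back _ _ _ hqy''
      have e1 : q'.1 = q.1 := by
        apply hx _ _ (q'.2 * (a⁻¹ * q.2⁻¹))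
        rw [Q.act_mul, hqy', Q.act_mul, back _ _ _ rfl, b0]
      have e2 : q''.1 = q.1 := by
        apply hx _ _ (q''.2 * ((a * b)⁻¹ * q.2⁻¹))
        rw [Q.act_mul, hqy'', Q.act_mul, back _ _ _ rfl, b0]
      rw [κ_some y (a * b) q q'' hq hq'', κ_some y a q q' hq hq',
        κ_some (Q.act y a) b q' q'' hq' (by rw [← Q.act_mul]; exact hq''), e1, ← hΘ]
      · congr 1
        group
      · rw [Q.act_mul, Q.act_mul, hqy, b1, e1]
      · rw [e1] at hqy'
        rw [mul_assoc, Q.act_mul, hqy', Q.act_mul, ← Q.act_mul y a b, b2, e2]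
    · have h' : ¬ Hit (Q.act y a) := fun h' => h (hit_of_act y a h')
      rw [κ_none _ _ (hp2 y h), κ_none _ _ (hp2 y h), κ_none _ _ (hp2 _ h'), one_mul]
  · have hq : ∀ i, ∃ a, p (x i) = some (i, a) ∧ Q.act (x i) a = x i := by
      intro i
      obtain ⟨q, hq, hqy⟩ := hp1 (x i) ⟨(i, 1), Q.act_one _⟩
      have e1 : q.1 = i := hx _ _ _ hqy
      obtain ⟨j, a⟩ := q
      have e2 : j = i := e1
      subst e2
      exact ⟨a, hq, hqy⟩
    choose r hr1 hr2 using hq
    refine ⟨fun i => (Θ i (r i))⁻¹, fun i a ha => ?_⟩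
    have hone : Θ i 1 = 1 := by
      have := hΘ i 1 1 (Q.act_one _) (Q.act_one _)
      rw [mul_one] at this
      exact mul_eq_left.1 this.symm
    have hinv : Q.act (x i) (r i)⁻¹ = x i := by
      conv_lhs => rw [← hr2 i]
      rw [← Q.act_mul, mul_inv_cancel, Q.act_one]
    have hΘinv : Θ i (r i)⁻¹ = (Θ i (r i))⁻¹ := by
      have := hΘ i (r i) (r i)⁻¹ (hr2 i) hinv
      rw [mul_inv_cancel, hone] at this
      exact (eq_inv_of_mul_eq_one_right this.symm)
    rw [κ_some (x i) a (i, r i) (i, r i) (hr1 i) (by rw [ha]; exact hr1 i)]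
    show Θ i (r i * a * (r i)⁻¹) = _
    rw [hΘ i (r i * a) (r i)⁻¹ (by rw [Q.act_mul, hr2, ha]) hinv, hΘ i (r i) a (hr2 i) ha, hΘinv,
      inv_inv]

end Pool.Agent.H82.PL
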