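import Pool.Agent.H82.Pile.Defs

/-!
# Topological preparations: separation of finitely many orbits
-/

set_option autoImplicit false

universe u v

namespace Pool.Agent.H82.PL

section
variable {G : Type u} {T : Type v} [Group G] [TopologicalSpace G] [IsTopologicalGroup G]
  [CompactSpace G] [TopologicalSpace T]

theorem exists_finite_quot (M : OpenNormalSubgroup G) :
    ∃ (A : Type) (_ : Group A) (_ : Finite A) (π : G →* A), Function.Surjective π ∧
      ∀ g, π g = 1 ↔ g ∈ M := by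
  have hn : M.toSubgroup.Normal := M.isNormal'
  have hfin : Finite (G ⧸ M.toSubgroup) :=
    Subgroup.quotient_finite_of_isOpen M.toSubgroup M.toOpenSubgroup.isOpen
  have e : (G ⧸ M.toSubgroup) ≃* Shrink.{0} (G ⧸ M.toSubgroup) := Shrink.mulEquiv.symm
  refine ⟨Shrink.{0} (G ⧸ M.toSubgroup), inferInstance, inferInstance,
    e.toMonoidHom.comp (QuotientGroup.mk' M.toSubgroup), ?_, ?_⟩
  · exact e.surjective.comp (QuotientGroup.mk'_surjective _)
  · intro g
    show e (QuotientGroup.mk' M.toSubgroup g) = 1 ↔ _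
    rw [MulEquiv.map_eq_one_iff, QuotientGroup.mk'_apply, QuotientGroup.eq_one_iff]
    rfl

omit [CompactSpace G] in
theorem isOpen_subset_coset (N : OpenNormalSubgroup G) (s : G) : IsOpen {g : G | s⁻¹ * g ∈ N} :=
  N.toOpenSubgroup.isOpen.preimage (continuous_const_mul s⁻¹)

end

section
variable {G : Type u} {T : Type v} [Group G] [TopologicalSpace G]
  [TopologicalSpace T] [CompactSpace T]

theorem uniform_clopen (P : Pile G T) {V : Set T} (hV : IsClopen V) :
    ∃ U : Set G, IsOpen U ∧ (1 : G) ∈ U ∧ ∀ g ∈ U, ∀ x, (P.act x g ∈ V ↔ x ∈ V) := by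
  have hD : IsOpen {p : T × G | P.act p.1 p.2 ∈ V ↔ p.1 ∈ V} := by
    have h1 : {p : T × G | P.act p.1 p.2 ∈ V ↔ p.1 ∈ V} =
        ({p : T × G | P.act p.1 p.2 ∈ V} ∩ {p : T × G | p.1 ∈ V}) ∪
        ({p : T × G | P.act p.1 p.2 ∈ Vᶜ} ∩ {p : T × G | p.1 ∈ Vᶜ}) := by
      ext p
      simp only [Set.mem_ofPred_eq, Set.mem_union, Set.mem_inter_iff, Set.mem_compl_iff]
      tauto
    rw [h1]
    exact ((hV.isOpen.preimage P.cont).inter (hV.isOpen.preimage continuous_fst)).union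
      ((hV.compl.isOpen.preimage P.cont).inter (hV.compl.isOpen.preimage continuous_fst))
  obtain ⟨u, v, -, hv, hu, h1v, huv⟩ := generalized_tube_lemma (isCompact_univ (X := T))
    (isCompact_singleton (x := (1 : G))) hD (by
      rintro ⟨x, g⟩ ⟨-, hg⟩
      have hg' : g = 1 := hg
      show P.act x g ∈ V ↔ x ∈ V
      rw [hg', P.act_one])
  refine ⟨v, hv, h1v rfl, fun g hg x => ?_⟩
  exact huv (Set.mk_mem_prod (hu (Set.mem_univ x)) hg)

theorem exists_clopen_sep [T2Space T] [TotallyDisconnectedSpace T] {K : Set T} (hK : IsClosed K)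
    {t : T} (ht : t ∉ K) : ∃ V : Set T, IsClopen V ∧ t ∈ V ∧ ∀ x ∈ V, x ∉ K := by
  obtain ⟨V, hV, htV, hVK⟩ := compact_exists_isClopen_in_isOpen hK.isOpen_compl ht
  exact ⟨V, hV, htV, fun x hx => hVK hx⟩

variable [IsTopologicalGroup G] [CompactSpace G] [TotallyDisconnectedSpace G] [T2Space T]
  [TotallyDisconnectedSpace T]

/-- Separation of the orbits, and of the parts of one orbit. -/
theorem exists_sep (P : Pile G T) {m : ℕ} (t : Fin m → T)
    (ht : ∀ i j g, P.act (t i) g = t j → i = j) (N : OpenNormalSubgroup G) :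
    ∃ (V : Fin m → Set T) (M : OpenNormalSubgroup G), (∀ i, IsClopen (V i)) ∧
      (∀ i, t i ∈ V i) ∧
      (∀ i g, P.act (t i) g ∈ V i → ∃ s ∈ P.stab (t i), s⁻¹ * g ∈ N) ∧
      (∀ i j g, P.act (t j) g ∈ V i → i = j) ∧ (∀ g ∈ M, g ∈ N) ∧
      ∀ i, ∀ g ∈ M, ∀ x, (P.act x g ∈ V i ↔ x ∈ V i) := by
  have hcont : ∀ x : T, Continuous (P.act x) := fun x =>
    P.cont.comp (continuous_const.prodMk continuous_id)
  have hV : ∀ i, ∃ V : Set T, IsClopen V ∧ t i ∈ V ∧
      (∀ g, P.act (t i) g ∈ V → ∃ s ∈ P.stab (t i), s⁻¹ * g ∈ N) ∧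
      ∀ j g, P.act (t j) g ∈ V → i = j := by
    intro i
    -- the bad set
    have hS : IsOpen {g : G | ∃ s ∈ P.stab (t i), s⁻¹ * g ∈ N} := by
      have : {g : G | ∃ s ∈ P.stab (t i), s⁻¹ * g ∈ N} =
          ⋃ s ∈ P.stab (t i), {g : G | s⁻¹ * g ∈ N} := by
        ext g
        simp
      rw [this]
      exact isOpen_biUnion fun s _ => isOpen_subset_coset N s
    have hC : IsClosed (P.act (t i) '' {g : G | ∃ s ∈ P.stab (t i), s⁻¹ * g ∈ N}ᶜ) :=
      (hS.isClosed_compl.isCompact.image (hcont _)).isClosed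
    have hO : IsClosed (⋃ j ∈ {j : Fin m | i ≠ j}, Set.range (P.act (t j))) := by
      apply Set.Finite.isClosed_biUnion (Set.toFinite _)
      intro j _
      exact (isCompact_range (hcont _)).isClosed
    obtain ⟨V, hV, htV, hVK⟩ := exists_clopen_sep (hC.union hO) (t := t i) (by
      rintro (⟨g, hg, hgt⟩ | h)
      · exact hg ⟨g, hgt, by rw [inv_mul_cancel]; exact one_mem N.toSubgroup⟩
      · simp only [Set.mem_iUnion] at h
        obtain ⟨j, hj, g, hg⟩ := h
        exact hj (ht j i g hg).symm)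
    refine ⟨V, hV, htV, fun g hg => ?_, fun j g hg => ?_⟩
    · by_contra hcon
      exact hVK _ hg (Or.inl ⟨g, hcon, rfl⟩)
    · by_contra hcon
      refine hVK _ hg (Or.inr ?_)
      simp only [Set.mem_iUnion]
      exact ⟨j, hcon, g, rfl⟩
  choose V hV1 hV2 hV3 hV4 using hV
  choose U hU1 hU2 hU3 using fun i => uniform_clopen P (hV1 i)
  obtain ⟨M, hM⟩ := ProfiniteGrp.exist_openNormalSubgroup_sub_open_nhds_of_one
    (U := (⋂ i, U i) ∩ (N : Set G)) ((isOpen_iInter_of_finite hU1).inter N.toOpenSubgroup.isOpen)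
    ⟨Set.mem_iInter.2 hU2, one_mem N.toSubgroup⟩
  refine ⟨V, M, hV1, hV2, hV3, hV4, fun g hg => (hM hg).2, fun i g hg x => ?_⟩
  exact hU3 i g (Set.mem_iInter.1 (hM hg).1 i) x

end

end Pool.Agent.H82.PL
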