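import Pool.Agent.H82.Pile.Twist
import Pool.Agent.H82.Pile.Top
import Pool.Agent.H82.Pile.Coc

/-!
# Homomorphisms of a projective pile with prescribed restrictions to stabilizers
-/

set_option autoImplicit false

universe u v

namespace Pool.Agent.H82.PL

section
variable {G : Type u} {T : Type v} [Group G] [TopologicalSpace G] [IsTopologicalGroup G]
  [CompactSpace G] [TotallyDisconnectedSpace G]
  [TopologicalSpace T] [CompactSpace T] [T2Space T] [TotallyDisconnectedSpace T]

/-- In a projective pile, homomorphisms (with open kernel) of the stabilizers of finitely many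
points in distinct orbits into a finite group `E` extend, up to conjugation in `E`, to one
continuous homomorphism of `G`. -/
theorem core (P : Pile G T) (hP : P.Projective) {E : Type} [Group E] [Finite E] {m : ℕ}
    (t : Fin m → T) (ht : ∀ i j g, P.act (t i) g = t j → i = j)
    (θ : ∀ i, P.stab (t i) →* E) (N : OpenNormalSubgroup G)
    (hN : ∀ i (g : P.stab (t i)), (g : G) ∈ N → θ i g = 1) :
    ∃ ψ : G →* E, IsOpen (ψ.ker : Set G) ∧
      ∃ w : Fin m → E, ∀ i (g : P.stab (t i)), ψ g = (w i)⁻¹ * θ i g * w i := by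
  classical
  obtain ⟨V, M, hV1, hV2, hV3, hV4, hMN, hM⟩ := exists_sep P t ht N
  obtain ⟨A, iA, fA, π, hπ, hker⟩ := exists_finite_quot M
  have hnN : N.toSubgroup.Normal := N.isNormal'
  let _ : TopologicalSpace A := ⊥
  have : DiscreteTopology A := ⟨rfl⟩
  let _ : TopologicalSpace E := ⊥
  have : DiscreteTopology E := ⟨rfl⟩
  -- invariance
  have hinv : ∀ i x g h, π g = π h → (P.act x g ∈ V i ↔ P.act x h ∈ V i) := by
    intro i x g h hgh
    have h1 : g⁻¹ * h ∈ M := by
      rw [← hker, map_mul, map_inv, hgh, inv_mul_cancel]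
    have h2 : h = g * (g⁻¹ * h) := by group
    rw [h2, P.act_mul, hM i _ h1]
  -- the finite pile
  set σ : A → G := fun a => (hπ a).choose with hσ
  have hσπ : ∀ a, π (σ a) = a := fun a => (hπ a).choose_spec
  let Q : Pile A (A → Fin m → Bool) :=
    { act := fun x a b => x (a * b)
      act_one := fun x => by funext b; rw [one_mul]
      act_mul := fun x a b => by funext c; rw [mul_assoc]
      cont := continuous_of_discreteTopology }
  set F : T → (A → Fin m → Bool) := fun x a i => decide (P.act x (σ a) ∈ V i) with hF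
  have hFv : ∀ x g i, F x (π g) i = decide (P.act x g ∈ V i) := by
    intro x g i
    simp only [hF]
    rw [decide_eq_decide]
    exact hinv i x _ _ (hσπ _)
  have hπc : Continuous π := by
    rw [continuous_discrete_rng]
    intro a
    obtain ⟨g, rfl⟩ := hπ a
    have : π ⁻¹' {π g} = {h : G | g⁻¹ * h ∈ M} := by
      ext h
      rw [Set.mem_preimage, Set.mem_singleton_iff, Set.mem_ofPred_eq, ← hker, map_mul, map_inv,
        inv_mul_eq_one, eq_comm]
    rw [this]
    exact isOpen_subset_coset M g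
  have hFc : Continuous F := by
    refine continuous_pi fun a => continuous_pi fun i => ?_
    rw [continuous_bool_rng true]
    have : (fun x => F x a i) ⁻¹' {true} = (fun x => P.act x (σ a)) ⁻¹' (V i) := by
      ext x
      simp [hF]
    rw [this]
    exact (hV1 i).preimage (P.cont.comp (continuous_id.prodMk continuous_const))
  let φ : Mor P Q :=
    { hom := π
      map := F
      hom_cont := hπc
      map_cont := hFc
      equiv := by
        intro x g
        funext b i
        obtain ⟨h, rfl⟩ := hπ b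
        show F (P.act x g) (π h) i = F x (π g * π h) i
        rw [← map_mul, hFv, hFv, P.act_mul] }
  -- stabilizers and orbits of the points `F (t i)`
  have hstab : ∀ i g, Q.act (F (t i)) (π g) = F (t i) → ∃ s ∈ P.stab (t i), s⁻¹ * g ∈ N := by
    intro i g h
    have h1 := congrFun (congrFun h 1) i
    have h2 : F (t i) (π g * 1) i = F (t i) 1 i := h1
    rw [mul_one, hFv, ← map_one π, hFv, decide_eq_decide, P.act_one] at h2
    exact hV3 i g (h2.2 (hV2 i))
  have horb : ∀ i j a, Q.act (F (t i)) a = F (t j) → i = j := by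
    intro i j a h
    obtain ⟨g, rfl⟩ := hπ a
    have h1 := congrFun (congrFun h 1) j
    have h2 : F (t i) (π g * 1) j = F (t j) 1 j := h1
    rw [mul_one, hFv, ← map_one π, hFv, decide_eq_decide, P.act_one] at h2
    exact (hV4 j i g (h2.2 (hV2 j))).symm
  -- the extension of `θ i`
  have hΘ : ∀ i (g : G), ∃ e : E, ∀ s : P.stab (t i), (s : G)⁻¹ * g ∈ N → e = θ i s := by
    intro i g
    by_cases h : ∃ s : P.stab (t i), (s : G)⁻¹ * g ∈ N
    · obtain ⟨s, hs⟩ := h
      refine ⟨θ i s, fun s' hs' => ?_⟩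
      have h1 : ((s'⁻¹ * s : P.stab (t i)) : G) ∈ N := by
        have : ((s'⁻¹ * s : P.stab (t i)) : G) = ((s' : G)⁻¹ * g) * ((s : G)⁻¹ * g)⁻¹ := by
          push_cast
          group
        rw [this]
        exact mul_mem (S := Subgroup G) (s := N.toSubgroup) hs'
          (inv_mem (S := Subgroup G) (s := N.toSubgroup) hs)
      have h2 := hN i _ h1
      rw [map_mul, map_inv, inv_mul_eq_one] at h2
      exact h2.symm
    · exact ⟨1, fun s hs => absurd ⟨s, hs⟩ h⟩
  choose Θ hΘ using hΘ
  have hΘmul : ∀ i a b, Q.act (F (t i)) a = F (t i) → Q.act (F (t i)) b = F (t i) →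
      Θ i (σ (a * b)) = Θ i (σ a) * Θ i (σ b) := by
    intro i a b ha hb
    obtain ⟨s, hs, hsa⟩ := hstab i (σ a) (by rw [hσπ]; exact ha)
    obtain ⟨r, hr, hrb⟩ := hstab i (σ b) (by rw [hσπ]; exact hb)
    rw [hΘ i (σ a) ⟨s, hs⟩ hsa, hΘ i (σ b) ⟨r, hr⟩ hrb, ← map_mul]
    apply hΘ
    -- `(s r)⁻¹ σ (a b) ∈ N`
    have h1 : (σ a * σ b)⁻¹ * σ (a * b) ∈ N := by
      apply hMN
      rw [← hker]
      simp only [map_mul, map_inv, hσπ]
      group
    have h2 : ((⟨s, hs⟩ * ⟨r, hr⟩ : P.stab (t i)) : G)⁻¹ * σ (a * b) =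
        (r⁻¹ * (s⁻¹ * σ a) * r⁻¹⁻¹) * (r⁻¹ * σ b) * ((σ a * σ b)⁻¹ * σ (a * b)) := by
      show (s * r)⁻¹ * σ (a * b) = _
      group
    rw [h2]
    exact mul_mem (S := Subgroup G) (s := N.toSubgroup)
      (mul_mem (S := Subgroup G) (s := N.toSubgroup) (hnN.conj_mem _ hsa _) hrb) h1
  obtain ⟨κ, hκ, c, hc⟩ := exists_cocycle Q (fun i => F (t i)) horb (fun i a => Θ i (σ a)) hΘmul
  obtain ⟨γ, hγ1, hγ2⟩ := hP A (A × E) (A → Fin m → Bool) ((A → Fin m → Bool) × E) Q
    (twist Q κ hκ) φ (twistMor Q κ hκ) (twist_epi Q κ hκ) (twist_rigid Q κ hκ)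
  refine ⟨(MonoidHom.snd A E).comp γ.hom, ?_, fun i => c i * (γ.map (t i)).2, ?_⟩
  · have h1 : (((MonoidHom.snd A E).comp γ.hom).ker : Set G) =
        γ.hom ⁻¹' {b | b.2 = 1} := by
      ext g
      rfl
    rw [h1]
    exact (isOpen_discrete _).preimage γ.hom_cont
  · intro i g
    have h1 : γ.hom g ∈ (twist Q κ hκ).stab (γ.map (t i)) := by
      rw [Pile.mem_stab, ← γ.equiv]
      congr 1
      exact g.2
    have h2 : (γ.map (t i)).1 = F (t i) := hγ2 (t i)
    have h3 : (γ.hom g).1 = π g := hγ1 g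
    have h4 : γ.map (t i) = (F (t i), (γ.map (t i)).2) := by rw [← h2]
    have h5 : γ.hom g = (π g, (γ.hom g).2) := by rw [← h3]
    rw [h4, h5, mem_twist_stab] at h1
    obtain ⟨h6, h7⟩ := h1
    show (γ.hom g).2 = _
    have h8 : Θ i (σ (π g)) = θ i g := by
      apply hΘ
      apply hMN
      rw [← hker, map_mul, map_inv, hσπ, inv_mul_cancel]
    rw [h7, hc i _ h6, h8]
    group

end

end Pool.Agent.H82.PL
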