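import Pool.Agent.H82.Pile.Core

/-!
# Counting orbits
-/

set_option autoImplicit false

universe u v

namespace Pool.Agent.H82.PL

section
variable {G : Type u} [Group G] [TopologicalSpace G] [IsTopologicalGroup G]

/-- Homomorphisms with open kernels are determined by their values on topological generators. -/
theorem hom_ext {E : Type} [Group E] {d : ℕ} (s : Fin d → G)
    (hs : (Subgroup.closure (Set.range s)).topologicalClosure = ⊤) {ψ ψ' : G →* E}
    (h : IsOpen (ψ.ker : Set G)) (h' : IsOpen (ψ'.ker : Set G)) (heq : ∀ i, ψ (s i) = ψ' (s i)) :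
    ψ = ψ' := by
  have h1 : IsOpen ((ψ.eqLocus ψ' : Subgroup G) : Set G) := by
    apply Subgroup.isOpen_mono (H₁ := ψ.ker ⊓ ψ'.ker)
    · intro g hg
      show ψ g = ψ' g
      rw [MonoidHom.mem_ker.1 hg.1, MonoidHom.mem_ker.1 hg.2]
    · exact h.inter h'
  have h2 : IsClosed ((ψ.eqLocus ψ' : Subgroup G) : Set G) :=
    Subgroup.isClosed_of_isOpen _ h1
  have h3 : Subgroup.closure (Set.range s) ≤ ψ.eqLocus ψ' := by
    rw [Subgroup.closure_le]
    rintro _ ⟨i, rfl⟩
    exact heq i
  have h4 := Subgroup.topologicalClosure_minimal _ h3 h2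
  rw [hs] at h4
  ext g
  exact h4 (Subgroup.mem_top g)

end

section
variable {G : Type u} {T : Type v} [Group G] [TopologicalSpace G] [IsTopologicalGroup G]
  [CompactSpace G] [TotallyDisconnectedSpace G]
  [TopologicalSpace T] [CompactSpace T] [T2Space T] [TotallyDisconnectedSpace T]

theorem two_pow_le (P : Pile G T) (hP : P.Projective) {d : ℕ} (s : Fin d → G)
    (hs : (Subgroup.closure (Set.range s)).topologicalClosure = ⊤) {E : Type} [Group E] [Finite E]
    {m : ℕ} (t : Fin m → T) (ht : ∀ i j g, P.act (t i) g = t j → i = j)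
    (θ : ∀ i, P.stab (t i) →* E) (hθ : ∀ i, θ i ≠ 1) (N : OpenNormalSubgroup G)
    (hN : ∀ i (g : P.stab (t i)), (g : G) ∈ N → θ i g = 1) :
    2 ^ m ≤ Nat.card E ^ d := by
  classical
  have key : ∀ J : Fin m → Bool, ∃ ψ : G →* E, IsOpen (ψ.ker : Set G) ∧
      ∀ i, ((∀ g ∈ P.stab (t i), ψ g = 1) ↔ J i = false) := by
    intro J
    obtain ⟨ψ, hψ, w, hw⟩ := core P hP t ht (fun i => if J i then θ i else 1) N (by
      intro i g hg
      split_ifs
      · exact hN i g hg
      · rfl)
    refine ⟨ψ, hψ, fun i => ?_⟩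
    constructor
    · intro h
      by_contra hJ
      apply hθ i
      ext g
      have h1 := hw i g
      rw [h g g.2, if_pos (by simpa using hJ)] at h1
      rw [MonoidHom.one_apply]
      have h2 : θ i g = w i * 1 * (w i)⁻¹ := by rw [h1]; group
      rw [h2]
      group
    · intro hJ g hg
      have h1 := hw i ⟨g, hg⟩
      rw [if_neg (by simp [hJ]), MonoidHom.one_apply] at h1
      rw [h1]
      group
  choose ψ hψ1 hψ2 using key
  have hinj : Function.Injective (fun (J : Fin m → Bool) (j : Fin d) => ψ J (s j)) := by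
    intro J J' h
    have h1 : ψ J = ψ J' := hom_ext s hs (hψ1 J) (hψ1 J') (fun j => congrFun h j)
    funext i
    have h2 := hψ2 J i
    rw [h1] at h2
    have h3 := h2.symm.trans (hψ2 J' i)
    cases h4 : J i <;> cases h5 : J' i <;> simp_all
  have h1 := Nat.card_le_card_of_injective _ hinj
  rw [Nat.card_fun, Nat.card_fun, Nat.card_fin, Nat.card_fin] at h1
  simpa using h1

omit [CompactSpace T] [T2Space T] [TotallyDisconnectedSpace T] [CompactSpace G] in
theorem exists_theta [CompactSpace G] (P : Pile G T) {n : ℕ} {t : T} (h : P.SmallIndex n t) :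
    ∃ (θ : P.stab t →* Equiv.Perm (Fin n)) (N : OpenNormalSubgroup G), θ ≠ 1 ∧
      ∀ g : P.stab t, (g : G) ∈ N → θ g = 1 := by
  classical
  obtain ⟨U, hUc, hU, hi0, hin⟩ := h
  set S := P.stab t with hS
  set U' : Subgroup S := U.subgroupOf S with hU'
  have hfin : Finite (S ⧸ U') := by
    have : U'.FiniteIndex := ⟨hi0⟩
    infer_instance
  have hcard : Nat.card (S ⧸ U') ≤ Nat.card (Fin n) := by
    rw [Nat.card_fin]
    exact hin
  obtain ⟨e⟩ : Nonempty ((S ⧸ U') ↪ Fin n) := by
    have := Fintype.ofFinite (S ⧸ U')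
    apply Function.Embedding.nonempty_of_card_le
    rw [Nat.card_eq_fintype_card, Nat.card_eq_fintype_card] at hcard
    exact hcard
  set θ0 : S →* Equiv.Perm (S ⧸ U') := MulAction.toPermHom S (S ⧸ U') with hθ0
  -- the complement of `U` in `S` is closed
  have hcl : IsClosed {g : G | g ∈ S ∧ g ∉ U} := by
    have h1 : {g : G | g ∈ S ∧ g ∉ U} =
        ⋃ q ∈ {q : S ⧸ U' | q ≠ ((1 : S) : S ⧸ U')}, {g : G | ((Quotient.out q : S) : G)⁻¹ * g ∈ U} := by
      ext g
      simp only [Set.mem_ofPred_eq, Set.mem_iUnion, exists_prop]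
      constructor
      · rintro ⟨hgS, hgU⟩
        refine ⟨((⟨g, hgS⟩ : S) : S ⧸ U'), ?_, ?_⟩
        · intro h
          rw [eq_comm, QuotientGroup.eq] at h
          apply hgU
          have h2 : ((1 : S)⁻¹ * (⟨g, hgS⟩ : S)) ∈ U' := h
          rw [inv_one, one_mul] at h2
          exact Subgroup.mem_subgroupOf.1 h2
        · have h2 : (Quotient.out ((⟨g, hgS⟩ : S) : S ⧸ U'))⁻¹ * (⟨g, hgS⟩ : S) ∈ U' := by
            rw [← QuotientGroup.eq, QuotientGroup.out_eq']
          exact Subgroup.mem_subgroupOf.1 h2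
      · rintro ⟨q, hq, hgq⟩
        have hgS : g ∈ S := by
          have h3 := S.mul_mem (Quotient.out q : S).2 (hU.le hgq)
          rwa [mul_inv_cancel_left] at h3
        refine ⟨hgS, fun hgU => hq ?_⟩
        rw [← QuotientGroup.out_eq' q, QuotientGroup.eq, mul_one]
        apply Subgroup.mem_subgroupOf.2
        have h4 := U.mul_mem hgq (U.inv_mem hgU)
        rw [mul_inv_cancel_right] at h4
        exact h4
    rw [h1]
    apply Set.Finite.isClosed_biUnion (Set.toFinite _)
    intro q _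
    exact hUc.preimage (continuous_const_mul _)
  obtain ⟨N, hN⟩ := ProfiniteGrp.exist_openNormalSubgroup_sub_open_nhds_of_one
    (U := {g : G | g ∈ S ∧ g ∉ U}ᶜ) hcl.isOpen_compl (fun h => h.2 U.one_mem)
  have hNn : N.toSubgroup.Normal := N.isNormal'
  refine ⟨(Equiv.Perm.viaEmbeddingHom e).comp θ0, N, ?_, ?_⟩
  · intro h
    obtain ⟨g, hgS, hgU⟩ := Set.exists_of_ssubset hU
    have h1 : Equiv.Perm.viaEmbeddingHom e (θ0 ⟨g, hgS⟩) = 1 := by
      have := DFunLike.congr_fun h (⟨g, hgS⟩ : S)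
      exact this
    have h2 : θ0 ⟨g, hgS⟩ = 1 := by
      apply Equiv.Perm.viaEmbeddingHom_injective e
      rw [h1, map_one]
    have h3 : θ0 ⟨g, hgS⟩ ((1 : S) : S ⧸ U') = ((1 : S) : S ⧸ U') := by
      rw [h2]
      rfl
    have h4 : (((⟨g, hgS⟩ : S) * 1 : S) : S ⧸ U') = ((1 : S) : S ⧸ U') := h3
    rw [mul_one, eq_comm, QuotientGroup.eq, inv_one, one_mul] at h4
    exact hgU (Subgroup.mem_subgroupOf.1 h4)
  · intro g hg
    have h1 : θ0 g = 1 := by
      ext q
      induction q using QuotientGroup.induction_on with | _ x => ?_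
      show ((g * x : S) : S ⧸ U') = ((x : S) : S ⧸ U')
      rw [eq_comm, QuotientGroup.eq]
      apply Subgroup.mem_subgroupOf.2
      have h2 : (((x : S) : G)⁻¹ * (g : G) * ((x : S) : G)⁻¹⁻¹) ∈ N := hNn.conj_mem _ hg _
      rw [inv_inv] at h2
      have h3 : ¬ (_ ∈ S ∧ _ ∉ U) := hN h2
      have h4 : (((x : S) : G)⁻¹ * (g : G) * ((x : S) : G)) ∈ S :=
        S.mul_mem (S.mul_mem (S.inv_mem x.2) g.2) x.2
      have h5 : (((x : S) : G)⁻¹ * (g : G) * ((x : S) : G)) ∈ U := by
        by_contra hcon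
        exact h3 ⟨h4, hcon⟩
      show (((x : S)⁻¹ * (g * x) : S) : G) ∈ U
      push_cast
      rw [← mul_assoc]
      exact h5
    rw [MonoidHom.comp_apply, h1, map_one]

end

end Pool.Agent.H82.PL
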