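import Mathlib

/-!
# Piles (MP_d84dbd_al): definitions

A pile `(G, T)` is a profinite group `G` acting continuously from the right on a profinite space
`T`. The definitions follow the problem file word by word.
-/

set_option autoImplicit false

universe u v u' v'

namespace Pool.Agent.H82.PL

/-- A continuous right action `(t, g) ↦ act t g` of the topological group `G` on the space `T`. -/
structure Pile (G : Type u) (T : Type v) [Group G] [TopologicalSpace G]
    [TopologicalSpace T] where
  act : T → G → T
  act_one : ∀ t, act t 1 = t
  act_mul : ∀ t g h, act t (g * h) = act (act t g) h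
  cont : Continuous fun p : T × G => act p.1 p.2

section
variable {G : Type u} {T : Type v} [Group G] [TopologicalSpace G] [TopologicalSpace T]

/-- The stabilizer `G_t`. -/
def Pile.stab (P : Pile G T) (t : T) : Subgroup G where
  carrier := {g | P.act t g = t}
  one_mem' := P.act_one t
  mul_mem' := by
    intro a b ha hb
    have ha' : P.act t a = t := ha
    have hb' : P.act t b = t := hb
    show P.act t (a * b) = t
    rw [P.act_mul, ha', hb']
  inv_mem' := by
    intro a ha
    have ha' : P.act t a = t := ha
    show P.act t a⁻¹ = t
    conv_lhs => rw [← ha']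
    rw [← P.act_mul, mul_inv_cancel, P.act_one]

theorem Pile.mem_stab (P : Pile G T) {t : T} {g : G} : g ∈ P.stab t ↔ P.act t g = t := Iff.rfl

/-- The orbit of `t`. -/
def Pile.orbitOf (P : Pile G T) (t : T) : Set T := Set.range (P.act t)

/-- The orbit equivalence relation. -/
def Pile.orb (P : Pile G T) : Setoid T where
  r t t' := ∃ g, P.act t g = t'
  iseqv := {
    refl := fun t => ⟨1, P.act_one t⟩
    symm := by
      rintro t t' ⟨g, rfl⟩
      exact ⟨g⁻¹, by rw [← P.act_mul, mul_inv_cancel, P.act_one]⟩
    trans := by
      rintro t t' t'' ⟨g, rfl⟩ ⟨h, rfl⟩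
      exact ⟨g * h, P.act_mul t g h⟩ }

end

section
variable {G : Type u} {T : Type v} [Group G] [TopologicalSpace G] [TopologicalSpace T]
variable {A : Type u'} {X : Type v'} [Group A] [TopologicalSpace A] [TopologicalSpace X]

/-- A morphism of piles. -/
structure Mor (P : Pile G T) (Q : Pile A X) where
  hom : G →* A
  map : T → X
  hom_cont : Continuous hom
  map_cont : Continuous map
  equiv : ∀ t g, map (P.act t g) = Q.act (map t) (hom g)

variable {P : Pile G T} {Q : Pile A X}

/-- An epimorphism: surjective on groups and on spaces, and each `x` has some preimage `y` whose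
stabilizer is mapped onto the stabilizer of `x`. -/
def Mor.Epi (α : Mor P Q) : Prop :=
  Function.Surjective α.hom ∧ Function.Surjective α.map ∧
    ∀ x, ∃ y, α.map y = x ∧ α.hom '' (P.stab y : Set G) = (Q.stab x : Set A)

/-- The induced map of the orbit spaces. -/
def Mor.orbMap (α : Mor P Q) : Quotient P.orb → Quotient Q.orb :=
  Quotient.lift (fun t => Quotient.mk Q.orb (α.map t)) (by
    rintro t t' ⟨g, rfl⟩
    exact Quotient.sound ⟨α.hom g, (α.equiv t g).symm⟩)

/-- A rigid morphism: every stabilizer is mapped isomorphically onto the stabilizer of the image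
point, and the induced map of the orbit spaces (with the quotient topologies) is a
homeomorphism. -/
def Mor.Rigid (α : Mor P Q) : Prop :=
  (∀ y, Set.BijOn α.hom (P.stab y : Set G) (Q.stab (α.map y) : Set A)) ∧ IsHomeomorph α.orbMap

/-- The pile is projective: every finite rigid embedding problem has a solution. (Finite spaces are
discrete because they are Hausdorff; every finite group and set has a copy in `Type`.) -/
def Pile.Projective (P : Pile G T) : Prop :=
  ∀ (A B X Y : Type) [Group A] [Group B] [Finite A] [Finite B] [Finite X] [Finite Y]
    [TopologicalSpace A] [TopologicalSpace B] [TopologicalSpace X] [TopologicalSpace Y]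
    [DiscreteTopology A] [DiscreteTopology B] [DiscreteTopology X] [DiscreteTopology Y]
    (Q : Pile A X) (R : Pile B Y) (φ : Mor P Q) (α : Mor R Q), α.Epi → α.Rigid →
    ∃ γ : Mor P R, (∀ g, α.hom (γ.hom g) = φ.hom g) ∧ ∀ t, α.map (γ.map t) = φ.map t

end

section
variable {G : Type u} {T : Type v} [Group G] [TopologicalSpace G] [TopologicalSpace T]

/-- `T'/G`: the set of the orbits of the points with nontrivial stabilizer. -/
def Pile.nontrivOrbits (P : Pile G T) : Set (Set T) := {O | ∃ t, P.stab t ≠ ⊥ ∧ O = P.orbitOf t}

/-- The stabilizer of `t` has a proper open subgroup of index at most `n`. (A subgroup of finite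
index of the profinite group `G_t` is open iff it is closed, and `G_t` is closed in `G`.) -/
def Pile.SmallIndex (P : Pile G T) (n : ℕ) (t : T) : Prop :=
  ∃ U : Subgroup G, IsClosed (U : Set G) ∧ U < P.stab t ∧ U.relIndex (P.stab t) ≠ 0 ∧
    U.relIndex (P.stab t) ≤ n

/-- The orbits of the points whose stabilizer has a proper open subgroup of index at most `n`. -/
def Pile.smallOrbits (P : Pile G T) (n : ℕ) : Set (Set T) :=
  {O | ∃ t, P.SmallIndex n t ∧ O = P.orbitOf t}

end

end Pool.Agent.H82.PL
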