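import Pool.Agent.H82.Pile.Count

/-!
# The bounded index criterion: proof
-/

set_option autoImplicit false

universe u v

namespace Pool.Agent.H82.PL

variable {G : Type u} {T : Type v} [Group G] [TopologicalSpace G] [IsTopologicalGroup G]
  [CompactSpace G] [TotallyDisconnectedSpace G] [T2Space G]
  [TopologicalSpace T] [CompactSpace T] [T2Space T] [TotallyDisconnectedSpace T]

omit [T2Space G] in
theorem two_pow_le_fact (P : Pile G T) (hP : P.Projective) {d : ℕ} (s : Fin d → G)
    (hs : (Subgroup.closure (Set.range s)).topologicalClosure = ⊤) (n : ℕ) {m : ℕ}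
    (O : Fin m → Set T) (hO : Function.Injective O) (hOn : ∀ i, O i ∈ P.smallOrbits n) :
    2 ^ m ≤ n.factorial ^ d := by
  choose t ht1 ht2 using hOn
  have ht : ∀ i j g, P.act (t i) g = t j → i = j := by
    intro i j g h
    apply hO
    rw [ht2 i, ht2 j, ← h]
    ext x
    constructor
    · rintro ⟨a, rfl⟩
      exact ⟨g⁻¹ * a, by rw [← P.act_mul, mul_inv_cancel_left]⟩
    · rintro ⟨a, rfl⟩
      exact ⟨g * a, P.act_mul _ _ _⟩
  choose θ N hθ hN using fun i => exists_theta P (ht1 i)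
  obtain ⟨N', hN'⟩ := ProfiniteGrp.exist_openNormalSubgroup_sub_open_nhds_of_one
    (U := ⋂ i, ((N i : OpenNormalSubgroup G) : Set G))
    (isOpen_iInter_of_finite fun i => (N i).toOpenSubgroup.isOpen)
    (Set.mem_iInter.2 fun i => one_mem (N i).toSubgroup)
  have h1 := two_pow_le P hP s hs t ht θ hθ N' (fun i g hg =>
    hN i g (Set.mem_iInter.1 (hN' hg) i))
  have h2 : Nat.card (Equiv.Perm (Fin n)) = n.factorial := by
    rw [Nat.card_eq_fintype_card, Fintype.card_perm, Fintype.card_fin]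
  rw [h2] at h1
  exact h1

omit [T2Space G] in
theorem finite_small (P : Pile G T) (hP : P.Projective) {d : ℕ} (s : Fin d → G)
    (hs : (Subgroup.closure (Set.range s)).topologicalClosure = ⊤) (n : ℕ) :
    (P.smallOrbits n).Finite ∧ 2 ^ (P.smallOrbits n).ncard ≤ n.factorial ^ d := by
  have key : ∀ F : Finset (Set T), (F : Set (Set T)) ⊆ P.smallOrbits n →
      2 ^ F.card ≤ n.factorial ^ d := by
    intro F hF
    apply two_pow_le_fact P hP s hs n (fun i => ((F.equivFin.symm i : F) : Set T))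
    · exact Subtype.val_injective.comp F.equivFin.symm.injective
    · intro i
      exact hF (F.equivFin.symm i).2
  have hfin : (P.smallOrbits n).Finite := by
    by_contra hinf
    obtain ⟨F, hF, hcard⟩ := Set.Infinite.exists_subset_card_eq hinf (n.factorial ^ d)
    have h1 := key F hF
    rw [hcard] at h1
    exact absurd (Nat.lt_two_pow_self (n := n.factorial ^ d)) (not_lt.2 h1)
  refine ⟨hfin, ?_⟩
  have h1 := key hfin.toFinset (by rw [Set.Finite.coe_toFinset])
  rw [Set.ncard_eq_toFinset_card _ hfin]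
  exact h1

omit [TotallyDisconnectedSpace T] [CompactSpace T] in
theorem exists_small (P : Pile G T) {t : T} (ht : P.stab t ≠ ⊥) : ∃ n, P.SmallIndex n t := by
  obtain ⟨⟨g, hg⟩, hg0⟩ := Subgroup.ne_bot_iff_exists_ne_one.1 ht
  have hg1 : g ≠ 1 := fun h => hg0 (Subtype.ext h)
  obtain ⟨N, hN⟩ := ProfiniteGrp.exist_openNormalSubgroup_sub_open_nhds_of_one
    (U := ({g} : Set G)ᶜ) isOpen_compl_singleton (fun h => hg1 h.symm)
  have hclosed : IsClosed ((P.stab t : Subgroup G) : Set G) := by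
    have h1 : ((P.stab t : Subgroup G) : Set G) = (fun g => P.act t g) ⁻¹' {t} := rfl
    rw [h1]
    exact isClosed_singleton.preimage (P.cont.comp (continuous_const.prodMk continuous_id))
  refine ⟨(N.toSubgroup ⊓ P.stab t).relIndex (P.stab t), N.toSubgroup ⊓ P.stab t, ?_, ?_, ?_,
    le_rfl⟩
  · exact N.toOpenSubgroup.isClosed.inter hclosed
  · refine lt_of_le_of_ne inf_le_right ?_
    intro h
    have h1 : g ∈ N.toSubgroup ⊓ P.stab t := by rw [h]; exact hg
    exact hN h1.1 rfl
  · rw [Subgroup.inf_relIndex_right]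
    have hfin : Finite (G ⧸ N.toSubgroup) :=
      Subgroup.quotient_finite_of_isOpen N.toSubgroup N.toOpenSubgroup.isOpen
    have h1 : N.toSubgroup.index ≠ 0 := Subgroup.index_ne_zero_of_finite
    intro h2
    exact h1 (Subgroup.index_eq_zero_of_relIndex_eq_zero h2)

omit [CompactSpace G] [TotallyDisconnectedSpace G] [T2Space G] [CompactSpace T] [T2Space T]
  [TotallyDisconnectedSpace T] in
theorem small_act (P : Pile G T) {n : ℕ} {t : T} (h : P.SmallIndex n t) (g : G) :
    P.SmallIndex n (P.act t g) := by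
  obtain ⟨U, hUc, hU, hi0, hin⟩ := h
  have hst : P.stab (P.act t g) = (P.stab t).map (MulAut.conj g⁻¹).toMonoidHom := by
    ext x
    rw [Subgroup.mem_map]
    constructor
    · intro hx
      refine ⟨g * x * g⁻¹, ?_, ?_⟩
      · have hx' : P.act (P.act t g) x = P.act t g := hx
        show P.act t (g * x * g⁻¹) = t
        rw [P.act_mul, P.act_mul, hx', ← P.act_mul, mul_inv_cancel, P.act_one]
      · show g⁻¹ * (g * x * g⁻¹) * g⁻¹⁻¹ = x
        group
    · rintro ⟨y, hy, rfl⟩
      have hy' : P.act t y = t := hy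
      show P.act (P.act t g) (g⁻¹ * y * g⁻¹⁻¹) = P.act t g
      rw [← P.act_mul]
      have h1 : g * (g⁻¹ * y * g⁻¹⁻¹) = y * g := by group
      rw [h1, P.act_mul, hy']
  have hinj : Function.Injective (MulAut.conj g⁻¹).toMonoidHom := (MulAut.conj g⁻¹).injective
  have hrel : (U.map (MulAut.conj g⁻¹).toMonoidHom).relIndex (P.stab (P.act t g)) =
      U.relIndex (P.stab t) := by
    rw [hst, Subgroup.relIndex_map_map_of_injective _ _ hinj]
  refine ⟨U.map (MulAut.conj g⁻¹).toMonoidHom, ?_, ?_, ?_, ?_⟩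
  · have h1 : ((U.map (MulAut.conj g⁻¹).toMonoidHom : Subgroup G) : Set G) =
        (fun x => g * x * g⁻¹) ⁻¹' (U : Set G) := by
      ext x
      constructor
      · rintro ⟨y, hy, rfl⟩
        show g * (g⁻¹ * y * g⁻¹⁻¹) * g⁻¹ ∈ U
        have : g * (g⁻¹ * y * g⁻¹⁻¹) * g⁻¹ = y := by group
        rw [this]
        exact hy
      · intro hx
        refine ⟨g * x * g⁻¹, hx, ?_⟩
        show g⁻¹ * (g * x * g⁻¹) * g⁻¹⁻¹ = x
        group
    rw [h1]
    exact hUc.preimage (by fun_prop)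
  · rw [hst]
    exact lt_of_le_of_ne (Subgroup.map_mono hU.le)
      (fun h => hU.ne (Subgroup.map_injective hinj h))
  · rw [hrel]
    exact hi0
  · rw [hrel]
    exact hin

theorem bounded_index_criterion (P : Pile G T) (hP : P.Projective) (d : ℕ) (s : Fin d → G)
    (hs : (Subgroup.closure (Set.range s)).topologicalClosure = ⊤) :
    (∀ n : ℕ, (P.smallOrbits n).Finite ∧ 2 ^ (P.smallOrbits n).ncard ≤ n.factorial ^ d) ∧
      (P.nontrivOrbits.Finite ↔ ∃ n : ℕ, ∀ t, P.stab t ≠ ⊥ → P.SmallIndex n t) := by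
  refine ⟨finite_small P hP s hs, ?_, ?_⟩
  · intro hfin
    have h1 : ∀ O : Set T, ∃ n : ℕ, ∀ t, P.stab t ≠ ⊥ → P.orbitOf t = O → P.SmallIndex n t := by
      intro O
      by_cases h : ∃ t, P.stab t ≠ ⊥ ∧ P.orbitOf t = O
      · obtain ⟨t, ht, rfl⟩ := h
        obtain ⟨n, hn⟩ := exists_small P ht
        refine ⟨n, fun t' _ ht' => ?_⟩
        have h2 : t' ∈ P.orbitOf t := by
          rw [← ht']
          exact ⟨1, P.act_one t'⟩
        obtain ⟨g, rfl⟩ := h2
        exact small_act P hn g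
      · exact ⟨0, fun t ht ht' => absurd ⟨t, ht, ht'⟩ h⟩
    choose n hn using h1
    obtain ⟨B, hB⟩ := (hfin.image n).bddAbove
    refine ⟨B, fun t ht => ?_⟩
    obtain ⟨U, hUc, hU, hi0, hin⟩ := hn (P.orbitOf t) t ht rfl
    exact ⟨U, hUc, hU, hi0, hin.trans (hB ⟨P.orbitOf t, ⟨t, ht, rfl⟩, rfl⟩)⟩
  · rintro ⟨n, hn⟩
    apply (finite_small P hP s hs n).1.subset
    rintro O ⟨t, ht, rfl⟩
    exact ⟨t, hn t ht, rfl⟩

end Pool.Agent.H82.PL
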