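import Pool.Agent.H82.Pile.Defs

/-!
# The embedding problem with kernel `E` given by a cocycle `κ`
-/

set_option autoImplicit false

namespace Pool.Agent.H82.PL

theorem isOpen_quot_of_discrete {T : Type*} [TopologicalSpace T] [DiscreteTopology T]
    (s : Setoid T) (U : Set (Quotient s)) : IsOpen U := by
  rw [isOpen_coinduced]
  exact isOpen_discrete _

section
variable {A X E : Type} [Group A] [Group E] [TopologicalSpace A] [TopologicalSpace X]
  [TopologicalSpace E] [DiscreteTopology A] [DiscreteTopology X] [DiscreteTopology E]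

/-- The twisted pile on `X × E`. -/
def twist (Q : Pile A X) (κ : X → A → E) (hκ : ∀ x a b, κ x (a * b) = κ x a * κ (Q.act x a) b) :
    Pile (A × E) (X × E) where
  act y b := (Q.act y.1 b.1, (κ y.1 b.1)⁻¹ * y.2 * b.2)
  act_one := by
    rintro ⟨x, u⟩
    have h1 : κ x 1 = 1 := by
      have := hκ x 1 1
      rw [mul_one, Q.act_one] at this
      exact (mul_eq_left.1 this.symm)
    simp [Q.act_one, h1]
  act_mul := by
    rintro ⟨x, u⟩ ⟨a, e⟩ ⟨b, f⟩
    simp only [Prod.mk_mul_mk, Q.act_mul, hκ, mul_inv_rev, Prod.mk.injEq, true_and]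
    group
  cont := continuous_of_discreteTopology

variable (Q : Pile A X) (κ : X → A → E) (hκ : ∀ x a b, κ x (a * b) = κ x a * κ (Q.act x a) b)

/-- The projection of the twisted pile. -/
def twistMor : Mor (twist Q κ hκ) Q where
  hom := MonoidHom.fst A E
  map := Prod.fst
  hom_cont := continuous_of_discreteTopology
  map_cont := continuous_of_discreteTopology
  equiv _ _ := rfl

theorem mem_twist_stab {x : X} {u : E} {a : A} {e : E} :
    (a, e) ∈ (twist Q κ hκ).stab (x, u) ↔ Q.act x a = x ∧ e = u⁻¹ * κ x a * u := by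
  rw [Pile.mem_stab]
  show (Q.act x a, (κ x a)⁻¹ * u * e) = (x, u) ↔ _
  rw [Prod.mk.injEq]
  constructor
  · rintro ⟨h1, h2⟩
    refine ⟨h1, ?_⟩
    rw [mul_assoc, inv_mul_eq_iff_eq_mul] at h2
    have h3 : e = u⁻¹ * (κ x a * u) := by rw [← h2]; group
    rw [h3, mul_assoc]
  · rintro ⟨h1, rfl⟩
    refine ⟨h1, ?_⟩
    group

theorem twist_epi : (twistMor Q κ hκ).Epi := by
  refine ⟨fun a => ⟨(a, 1), rfl⟩, fun x => ⟨(x, 1), rfl⟩, fun x => ⟨(x, 1), rfl, ?_⟩⟩
  ext a
  constructor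
  · rintro ⟨⟨a', e⟩, h, rfl⟩
    exact ((mem_twist_stab Q κ hκ).1 h).1
  · intro h
    exact ⟨(a, 1⁻¹ * κ x a * 1), (mem_twist_stab Q κ hκ).2 ⟨h, rfl⟩, rfl⟩

theorem twist_rigid : (twistMor Q κ hκ).Rigid := by
  refine ⟨?_, ?_, ?_, ?_⟩
  · rintro ⟨x, u⟩
    refine ⟨?_, ?_, ?_⟩
    · rintro ⟨a, e⟩ h
      exact ((mem_twist_stab Q κ hκ).1 h).1
    · rintro ⟨a, e⟩ h ⟨a', e'⟩ h' (heq : a = a')
      subst heq
      have h1 := ((mem_twist_stab Q κ hκ).1 h).2
      have h2 := ((mem_twist_stab Q κ hκ).1 h').2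
      rw [h1, h2]
    · intro a h
      exact ⟨(a, u⁻¹ * κ x a * u), (mem_twist_stab Q κ hκ).2 ⟨h, rfl⟩, rfl⟩
  · exact ⟨fun U _ => isOpen_quot_of_discrete _ _⟩
  · intro U _
    exact isOpen_quot_of_discrete _ _
  · constructor
    · intro q q'
      induction q using Quotient.inductionOn with | _ y => ?_
      induction q' using Quotient.inductionOn with | _ y' => ?_
      intro h
      obtain ⟨a, ha⟩ := Quotient.exact h
      obtain ⟨x, u⟩ := y
      obtain ⟨x', u'⟩ := y'
      have ha' : Q.act x a = x' := ha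
      apply Quotient.sound
      refine ⟨(a, u⁻¹ * κ x a * u'), ?_⟩
      show (Q.act x a, (κ x a)⁻¹ * u * (u⁻¹ * κ x a * u')) = (x', u')
      rw [ha', Prod.mk.injEq]
      refine ⟨rfl, ?_⟩
      group
    · intro q
      induction q using Quotient.inductionOn with | _ x => ?_
      exact ⟨Quotient.mk _ (x, 1), rfl⟩

end

end Pool.Agent.H82.PL
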